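import Pool.Agent.K1H30.ES.Stm3

/-! Piece DIV of the project ES: division by `∏ (x - x_i)` in a class. -/

namespace Pool.Agent.K1H36.ES

open MvPolynomial Pool.Agent.K1H30.ES

/-- remainder modulo `x - x0` -/
lemma rem (K : Type) [Field K] (A B a : ℕ) (e : ℤ) (x0 : K) :
    ∀ G ∈ Cls K A B a (e + 2), ∃ H ∈ Cls K A B a e, ∃ c d : Polynomial K,
      G = (X 0 - C x0) * H + (Polynomial.aeval (X 2 : P3 K) c
        + Polynomial.aeval (X 2 : P3 K) d * X 1) := by
  intro G hG
  induction hG using Submodule.span_induction with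
  | mem G hG =>
    obtain ⟨⟨i, ε, j⟩, hm, rfl⟩ := hG
    obtain ⟨h1, h2, h3⟩ := hm
    simp only at h1 h2 h3
    have hgeo : (X 0 : P3 K) ^ i = (X 0 - C x0) *
        (∑ l ∈ Finset.range i, X 0 ^ l * (C x0) ^ (i - 1 - l)) + (C x0) ^ i := by
      have := (Commute.all (X 0 : P3 K) (C x0)).mul_geom_sum₂ i
      rw [this]
      ring
    have hH : (∑ l ∈ Finset.range i, X 0 ^ l * (C x0) ^ (i - 1 - l)) * X 1 ^ ε * X 2 ^ j
        ∈ Cls K A B a e := by
      rw [Finset.sum_mul, Finset.sum_mul]
      refine Submodule.sum_mem _ fun l hl => ?_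
      rw [Finset.mem_range] at hl
      have e1 : (X 0 : P3 K) ^ l * (C x0) ^ (i - 1 - l) * X 1 ^ ε * X 2 ^ j
          = (x0 ^ (i - 1 - l)) • mn (l, ε, j) := by
        simp only [mn, smul_eq_C_mul, C_pow]
        ring
      rw [e1]
      refine Submodule.smul_mem _ _ (Submodule.subset_span ⟨(l, ε, j), ⟨h1, h2, ?_⟩, rfl⟩)
      simp only
      omega
    refine ⟨_, hH, ?_⟩
    have hε : ε = 0 ∨ ε = 1 := by omega
    rcases hε with rfl | rfl
    · refine ⟨Polynomial.C (x0 ^ i) * Polynomial.X ^ j, 0, ?_⟩
      simp only [mn, map_mul, map_pow, Polynomial.aeval_C, Polynomial.aeval_X, map_zero,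
        algebraMap_eq]
      rw [hgeo]
      ring
    · refine ⟨0, Polynomial.C (x0 ^ i) * Polynomial.X ^ j, ?_⟩
      simp only [mn, map_mul, map_pow, Polynomial.aeval_C, Polynomial.aeval_X, map_zero,
        algebraMap_eq]
      rw [hgeo]
      ring
  | zero => exact ⟨0, Submodule.zero_mem _, 0, 0, by simp⟩
  | add G G' _ _ h h' =>
    obtain ⟨H, hH, c, d, h⟩ := h
    obtain ⟨H', hH', c', d', h'⟩ := h'
    refine ⟨H + H', Submodule.add_mem _ hH hH', c + c', d + d', ?_⟩
    rw [h, h', map_add, map_add]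
    ring
  | smul r G _ h =>
    obtain ⟨H, hH, c, d, h⟩ := h
    refine ⟨r • H, Submodule.smul_mem _ _ hH, r • c, r • d, ?_⟩
    rw [h, map_smul, map_smul]
    simp only [smul_eq_C_mul]
    ring

lemma eval_aeval_two {K : Type} [Field K] (c : Polynomial K) (x y z : K) :
    eval ![x, y, z] (Polynomial.aeval (X 2 : P3 K) c) = c.eval z := by
  have h : (eval ![x, y, z]) (Polynomial.aeval (X 2 : P3 K) c)
      = Polynomial.eval₂ (RingHom.id K) z c := by
    rw [Polynomial.aeval_def, Polynomial.hom_eval₂]
    congr 1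
    · ext r; simp
    · simp
  rw [h]
  rfl

/-- one point -/
lemma one (K : Type) [Field K] [CharZero K] (A B a : ℕ) (e : ℤ) (x0 y0 : K) (hy : y0 ≠ 0)
    (G : P3 K) (hG : G ∈ Cls K A B a (e + 2)) (h1 : ∀ z, eval ![x0, y0, z] G = 0)
    (h2 : ∀ z, eval ![x0, -y0, z] G = 0) :
    ∃ H ∈ Cls K A B a e, G = (X 0 - C x0) * H := by
  obtain ⟨H, hH, c, d, rfl⟩ := rem K A B a e x0 G hG
  have hc : ∀ z, c.eval z + d.eval z * y0 = 0 := by
    intro z
    have := h1 z
    simpa [eval_aeval_two] using this
  have hd : ∀ z, c.eval z - d.eval z * y0 = 0 := by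
    intro z
    have := h2 z
    simp only [map_add, map_mul, map_sub, eval_X, eval_C, eval_aeval_two] at this
    simp at this
    linear_combination this
  have : Infinite K := CharZero.infinite K
  have hc0 : c = 0 := by
    apply Polynomial.funext
    intro z
    have e1 : (2 : K) * c.eval z = 0 := by linear_combination hc z + hd z
    rcases mul_eq_zero.mp e1 with h | h
    · exact absurd h two_ne_zero
    · simpa using h
  have hd0 : d = 0 := by
    apply Polynomial.funext
    intro z
    have e1 : (2 : K) * (d.eval z * y0) = 0 := by linear_combination hc z - hd z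
    rcases mul_eq_zero.mp e1 with h | h
    · exact absurd h two_ne_zero
    · rcases mul_eq_zero.mp h with h | h
      · simpa using h
      · exact absurd h hy
  refine ⟨H, hH, ?_⟩
  simp [hc0, hd0]

theorem t_DIV : S_DIV := by
  intro K _ _ A B a k
  induction k with
  | zero =>
    intro e p _ _ G hG _ _
    refine ⟨G, ?_, by simp⟩
    simpa using hG
  | succ k ih =>
    intro e p hinj hy G hG h1 h2
    have hG' : G ∈ Cls K A B a ((e + 2 * (k : ℤ)) + 2) := by
      have : e + 2 * ((k + 1 : ℕ) : ℤ) = (e + 2 * (k : ℤ)) + 2 := by push_cast; ring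
      rwa [this] at hG
    obtain ⟨G', hG'', rfl⟩ := one K A B a (e + 2 * (k : ℤ)) (p 0).1 (p 0).2 (hy 0) G hG'
      (h1 0) (h2 0)
    have hne : ∀ i : Fin k, (p i.succ).1 - (p 0).1 ≠ 0 := by
      intro i h
      have : (p i.succ).1 = (p 0).1 := sub_eq_zero.mp h
      exact Fin.succ_ne_zero i (hinj this)
    obtain ⟨H, hH, rfl⟩ := ih e (fun i => p i.succ)
      (fun i j h => Fin.succ_injective _ (hinj h)) (fun i => hy i.succ) G' hG''
      (by
        intro i z
        have := h1 i.succ z
        simp only [map_mul, map_sub, eval_X, eval_C] at this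
        rcases mul_eq_zero.mp this with h | h
        · exact absurd (by simpa using h) (hne i)
        · exact h)
      (by
        intro i z
        have := h2 i.succ z
        simp only [ng, map_mul, map_sub, eval_X, eval_C] at this
        rcases mul_eq_zero.mp this with h | h
        · exact absurd (by simpa using h) (hne i)
        · exact h)
    refine ⟨H, hH, ?_⟩
    rw [Fin.prod_univ_succ]
    ring

end Pool.Agent.K1H36.ES
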